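import Mathlib

namespace Pool.Agent.Results.MP_a7b5fd_co.Count

open Finset

/-- `G` has a Hamming representation with threshold `t`. -/
def Rep {V : Type} (G : SimpleGraph V) (t : ℕ) : Prop :=
  ∃ (d : ℕ) (f : V → Fin d → ℤ), ∀ u v, u ≠ v → (G.Adj u v ↔ t ≤ hammingDist (f u) (f v))

theorem enc {V α : Type} [Fintype V] [DecidableEq α] (A : V → Finset α) (t : ℕ)
    (h : ∀ v, (A v).card ≤ t) : ∃ B : V → Finset (Fin (Fintype.card V * t)),
    ∀ u v, (B u ∩ B v).card = (A u ∩ A v).card := by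
  classical
  let W := univ.biUnion A
  have hW : Fintype.card W ≤ Fintype.card (Fin (Fintype.card V * t)) := by
    rw [Fintype.card_coe, Fintype.card_fin]
    exact card_biUnion_le_card_mul _ _ _ fun v _ => h v
  obtain ⟨e⟩ := Function.Embedding.nonempty_of_card_le hW
  refine ⟨fun v => (W.attach.filter fun x => x.1 ∈ A v).map e, fun u v => ?_⟩
  rw [← map_inter, card_map, ← filter_and]
  refine card_bij (fun x _ => x.1) ?_ ?_ ?_
  · intro x hx
    exact mem_inter.2 (mem_filter.1 hx).2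
  · intro x _ y _ hxy
    exact Subtype.ext hxy
  · intro b hb
    exact ⟨⟨b, mem_biUnion.2 ⟨u, mem_univ _, (mem_inter.1 hb).1⟩⟩,
      mem_filter.2 ⟨mem_attach _ _, mem_inter.1 hb⟩, rfl⟩

def S {d : ℕ} (z x : Fin d → ℤ) : Finset (Fin d) := univ.filter fun c => x c ≠ z c
def P {d : ℕ} (z x : Fin d → ℤ) : Finset (Fin d × ℤ) := (S z x).image fun c => (c, x c)

theorem ham {d : ℕ} (z x y : Fin d → ℤ) : hammingDist x y + (S z x ∩ S z y).card +
    (P z x ∩ P z y).card = (S z x).card + (S z y).card := by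
  have e : P z x ∩ P z y =
      (univ.filter fun c => x c ≠ z c ∧ x c = y c).image fun c => (c, x c) := by
    ext ⟨c, a⟩
    simp only [P, S, mem_inter, mem_image, mem_filter, mem_univ, true_and, Prod.mk.injEq]
    constructor
    · rintro ⟨⟨c1, h1, rfl, rfl⟩, ⟨c2, -, rfl, h3⟩⟩
      exact ⟨c2, ⟨h1, h3.symm⟩, rfl, rfl⟩
    · rintro ⟨c1, ⟨h1, h2⟩, rfl, rfl⟩
      exact ⟨⟨c1, h1, rfl, rfl⟩, ⟨c1, h2 ▸ h1, rfl, h2.symm⟩⟩
  rw [e, card_image_of_injective _ (fun a b h => (Prod.mk.inj h).1)]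
  simp only [hammingDist, S, ← filter_and, card_filter, ← sum_add_distrib]
  refine sum_congr rfl fun c _ => ?_
  by_cases h1 : x c = y c <;> by_cases h2 : x c = z c <;> by_cases h3 : y c = z c <;> simp_all

theorem card_small (N t : ℕ) :
    Fintype.card {B : Finset (Fin N) // B.card ≤ t} ≤ (t + 1) * (N + 1) ^ t := by
  rw [Fintype.card_subtype]
  have : (univ.filter fun B : Finset (Fin N) => B.card ≤ t) ⊆
      (range (t + 1)).biUnion fun j => powersetCard j univ := by
    intro B hB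
    exact mem_biUnion.2 ⟨B.card, mem_range.2 (Nat.lt_succ_of_le (mem_filter.1 hB).2),
      mem_powersetCard.2 ⟨subset_univ _, rfl⟩⟩
  refine (card_le_card this).trans ((card_biUnion_le_card_mul _ _ ((N + 1) ^ t) ?_).trans ?_)
  · intro j hj
    rw [card_powersetCard, card_univ, Fintype.card_fin]
    exact (Nat.choose_le_pow N j).trans ((Nat.pow_le_pow_left (Nat.le_succ N) j).trans
      (Nat.pow_le_pow_right (Nat.succ_pos N) (Nat.le_of_lt_succ (mem_range.1 hj))))
  · simp

theorem count {V I : Type} [Fintype V] [DecidableEq V] [Fintype I] (G : I → SimpleGraph V)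
    (hG : Function.Injective G) (o : V) (ho : ∀ i v, ¬ (G i).Adj v o) (t : ℕ)
    (h : ∀ i, ∃ t' ≤ t, Rep (G i) t') : Fintype.card I ≤
      (t + 1) * ((t + 1) * (Fintype.card V * t + 1) ^ t) ^ (2 * Fintype.card V) := by
  classical
  let Q := {B : Finset (Fin (Fintype.card V * t)) // B.card ≤ t}
  have key : ∀ i, ∃ c : Fin (t + 1) × (V → Q) × (V → Q), ∀ u v, u ≠ v → ((G i).Adj u v ↔
      c.1.1 + ((c.2.1 u).1 ∩ (c.2.1 v).1).card + ((c.2.2 u).1 ∩ (c.2.2 v).1).card ≤
        (c.2.1 u).1.card + (c.2.1 v).1.card) := by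
    intro i
    obtain ⟨t', ht', d, f, hf⟩ := h i
    have hS : ∀ v, (S (f o) (f v)).card ≤ t := by
      intro v
      by_cases hv : v = o
      · subst hv; simp [S]
      · have := (hf v o hv).not.1 (ho i v)
        have e : hammingDist (f v) (f o) = (S (f o) (f v)).card := rfl
        omega
    have hP : ∀ v, (P (f o) (f v)).card ≤ t := fun v => card_image_le.trans (hS v)
    obtain ⟨B1, h1⟩ := enc _ t hS
    obtain ⟨B2, h2⟩ := enc _ t hP
    have c1 : ∀ v, (B1 v).card = (S (f o) (f v)).card := fun v => by simpa using h1 v v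
    have c2 : ∀ v, (B2 v).card = (P (f o) (f v)).card := fun v => by simpa using h2 v v
    refine ⟨⟨⟨t', by omega⟩, fun v => ⟨B1 v, (c1 v).le.trans (hS v)⟩,
      fun v => ⟨B2 v, (c2 v).le.trans (hP v)⟩⟩, fun u v huv => ?_⟩
    have := ham (f o) (f u) (f v)
    simp only [h1, h2, c1, hf u v huv]
    omega
  choose c hc using key
  have hinj : Function.Injective c := by
    intro i j hij
    apply hG
    ext u v
    by_cases huv : u = v
    · subst huv; simp
    · rw [hc i u v huv, hc j u v huv, hij]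
  refine (Fintype.card_le_of_injective c hinj).trans ?_
  simp only [Fintype.card_prod, Fintype.card_fin, Fintype.card_fun]
  rw [← pow_add, ← two_mul]
  exact Nat.mul_le_mul_left _ (Nat.pow_le_pow_left (card_small _ _) _)

abbrev W (k s r : ℕ) := (Fin k × Fin s) ⊕ (Fin k × Fin s) ⊕ Fin (r + 1)

def rel {k s r : ℕ} (σ : Fin k × Fin k → Equiv.Perm (Fin s)) : W k s r → W k s r → Prop
  | .inl x, .inr (.inl y) => σ (x.1, y.1) x.2 = y.2
  | _, _ => False

def gr {k s r : ℕ} (σ : Fin k × Fin k → Equiv.Perm (Fin s)) : SimpleGraph (W k s r) :=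
  SimpleGraph.fromRel (rel σ)

theorem nb1 {k s r : ℕ} (σ : Fin k × Fin k → Equiv.Perm (Fin s)) (x : Fin k × Fin s) :
    ((gr (r := r) σ).neighborSet (.inl x)).ncard = k := by
  have : (gr (r := r) σ).neighborSet (.inl x) =
      (fun j => (.inr (.inl (j, σ (x.1, j) x.2)) : W k s r)) '' Set.univ := by
    ext v
    rcases v with y | ⟨j, b⟩ | y <;> simp [gr, rel]
  rw [this, Set.ncard_image_of_injective _ (fun a b h => by simpa using (by
    have := Sum.inl.inj (Sum.inr.inj h); exact (Prod.mk.inj this).1 : a = b))]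
  simp [Set.ncard_univ]

theorem nb2 {k s r : ℕ} (σ : Fin k × Fin k → Equiv.Perm (Fin s)) (y : Fin k × Fin s) :
    ((gr (r := r) σ).neighborSet (.inr (.inl y))).ncard = k := by
  have : (gr (r := r) σ).neighborSet (.inr (.inl y)) =
      (fun i => (.inl (i, (σ (i, y.1)).symm y.2) : W k s r)) '' Set.univ := by
    ext v
    rcases v with ⟨i, a⟩ | x | x <;> simp [gr, rel, Equiv.symm_apply_eq]
    exact eq_comm
  rw [this, Set.ncard_image_of_injective _ (fun a b h => by simpa using (by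
    have := Sum.inl.inj h; exact (Prod.mk.inj this).1 : a = b))]
  simp [Set.ncard_univ]

theorem nb3 {k s r : ℕ} (σ : Fin k × Fin k → Equiv.Perm (Fin s)) (y : Fin (r + 1)) (v : W k s r) :
    ¬ (gr σ).Adj v (.inr (.inr y)) := by
  rcases v with x | x | x <;> simp [gr, rel]

theorem main (n k s t : ℕ) (hk : 1 ≤ k) (hs : 1 ≤ s) (hn : 2 * k * s < n)
    (ht : (t + 1) * ((t + 1) * (n * t + 1) ^ t) ^ (2 * n) < (s.factorial) ^ (k * k)) :
    ∃ (V : Type) (_ : Fintype V) (G : SimpleGraph V), Fintype.card V = n ∧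
      (∀ v, (G.neighborSet v).ncard ≤ k) ∧ (∃ v, (G.neighborSet v).ncard = k) ∧
      ∀ t' ≤ t, ¬ Rep G t' := by
  obtain ⟨r, rfl⟩ : ∃ r, n = 2 * k * s + (r + 1) := ⟨n - 2 * k * s - 1, by omega⟩
  have hc : Fintype.card (W k s r) = 2 * k * s + (r + 1) := by
    simp only [Fintype.card_sum, Fintype.card_prod, Fintype.card_fin]; ring
  have hinj : Function.Injective (gr (k := k) (s := s) (r := r)) := by
    intro σ τ h
    funext p
    ext a
    have h1 : (gr (r := r) σ).Adj (.inl (p.1, a)) (.inr (.inl (p.2, σ p a))) := by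
      simp [gr, rel]
    rw [h] at h1
    simp [gr, rel] at h1
    rw [h1]
  by_contra hcon
  have hall : ∀ σ : Fin k × Fin k → Equiv.Perm (Fin s), ∃ t' ≤ t, Rep (gr (r := r) σ) t' := by
    intro σ
    by_contra hσ
    refine hcon ⟨W k s r, inferInstance, gr σ, hc, ?_, ⟨.inl (⟨0, hk⟩, ⟨0, hs⟩), nb1 σ _⟩,
      fun t' h1 h2 => hσ ⟨t', h1, h2⟩⟩
    rintro (x | x | x)
    · exact (nb1 σ x).le
    · exact (nb2 σ x).le
    · have : (gr (r := r) σ).neighborSet (.inr (.inr x)) = ∅ := by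
        ext v
        simpa using fun h => nb3 σ x v (SimpleGraph.Adj.symm h)
      simp [this]
  have := count gr hinj (.inr (.inr 0)) (fun σ v => nb3 σ 0 v) t hall
  rw [hc] at this
  simp only [Fintype.card_fun, Fintype.card_perm, Fintype.card_fin, Fintype.card_prod] at this
  omega

theorem fact_sq (s : ℕ) : s ^ s ≤ s.factorial * s.factorial := by
  have h1 := prod_range_add_one_eq_factorial s
  have h2 : ∏ i ∈ range s, (s - 1 - i + 1) = s.factorial := by
    rw [prod_range_reflect (fun i => i + 1) s, h1]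
  conv_rhs => rw [← h1]
  nth_rewrite 2 [h1]
  rw [← h2, ← prod_mul_distrib]
  calc s ^ s = ∏ _i ∈ range s, s := by simp
    _ ≤ _ := by
      refine prod_le_prod' fun i hi => ?_
      have hi := mem_range.1 hi
      obtain ⟨m, rfl⟩ : ∃ m, s = i + 1 + m := ⟨s - i - 1, by omega⟩
      have e : i + 1 + m - 1 - i + 1 = m + 1 := by omega
      rw [e]
      nlinarith [Nat.zero_le (i * m)]

theorem numeric (n k s t : ℕ) (hk : 1 ≤ k) (hs : 1 ≤ s) (hn : n ≤ 4 * k * s) (hn1 : 2 * k * s < n)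
    (ht : n ^ (56 * t) < s ^ k) :
    (t + 1) * ((t + 1) * (n * t + 1) ^ t) ^ (2 * n) < (s.factorial) ^ (k * k) := by
  have hkn : k < n := by nlinarith
  have hsn : s ≤ n := by nlinarith
  have n2 : 2 ≤ n := by omega
  have htk : 56 * t < k :=
    (Nat.pow_lt_pow_iff_right (by omega)).1 (lt_of_lt_of_le ht (Nat.pow_le_pow_left hsn k))
  have a1 : t + 1 ≤ n ^ t :=
    le_trans (Nat.lt_two_pow_self) (Nat.pow_le_pow_left n2 t)
  have a2 : n * t + 1 ≤ n ^ 2 := by
    have : n * (t + 1) ≤ n * n := Nat.mul_le_mul_left n (by omega)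
    nlinarith
  have a3 : (t + 1) * (n * t + 1) ^ t ≤ n ^ (3 * t) := by
    calc (t + 1) * (n * t + 1) ^ t ≤ n ^ t * (n ^ 2) ^ t :=
          Nat.mul_le_mul a1 (Nat.pow_le_pow_left a2 t)
      _ = n ^ (3 * t) := by ring
  have a4 : (t + 1) * ((t + 1) * (n * t + 1) ^ t) ^ (2 * n) ≤ n ^ (t + 3 * t * (2 * n)) := by
    rw [pow_add, pow_mul n (3 * t)]
    exact Nat.mul_le_mul a1 (Nat.pow_le_pow_left a3 _)
  have a5 : 2 * (t + 3 * t * (2 * n)) ≤ 56 * t * (k * s) := by
    have b1 : t ≤ t * n := Nat.le_mul_of_pos_right t (by omega)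
    have b2 : t * n ≤ t * (4 * k * s) := Nat.mul_le_mul_left t hn
    nlinarith
  refine lt_of_le_of_lt a4 (lt_of_pow_lt_pow_left₀ 2 (Nat.zero_le _) ?_)
  calc (n ^ (t + 3 * t * (2 * n))) ^ 2 = n ^ (2 * (t + 3 * t * (2 * n))) := by ring
    _ ≤ n ^ (56 * t * (k * s)) := Nat.pow_le_pow_right (by omega) a5
    _ = (n ^ (56 * t)) ^ (k * s) := pow_mul _ _ _
    _ < (s ^ k) ^ (k * s) := Nat.pow_lt_pow_left ht (Nat.mul_pos hk hs).ne'
    _ = (s ^ s) ^ (k * k) := by rw [← pow_mul, ← pow_mul]; congr 1; ring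
    _ ≤ (s.factorial * s.factorial) ^ (k * k) := Nat.pow_le_pow_left (fact_sq s) _
    _ = (s.factorial ^ (k * k)) ^ 2 := by ring

theorem result (n k t : ℕ) (hk : 1 ≤ k) (hn : 2 * k < n)
    (ht : n ^ (56 * t) < ((n - 1) / (2 * k)) ^ k) :
    ∃ (V : Type) (_ : Fintype V) (G : SimpleGraph V), Fintype.card V = n ∧
      (∀ v, (G.neighborSet v).ncard ≤ k) ∧ (∃ v, (G.neighborSet v).ncard = k) ∧
      ∀ t' ≤ t, ¬ Rep G t' := by
  have h1 : 1 ≤ (n - 1) / (2 * k) := (Nat.le_div_iff_mul_le (by omega)).2 (by omega)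
  have h2 : 2 * k * ((n - 1) / (2 * k)) ≤ n - 1 := Nat.mul_div_le _ _
  have h3 : n - 1 < 2 * k * ((n - 1) / (2 * k) + 1) := Nat.lt_mul_div_succ _ (by omega)
  generalize (n - 1) / (2 * k) = s at *
  have h4 : n ≤ 4 * k * s := by
    have : 2 * k * 1 ≤ 2 * k * s := Nat.mul_le_mul_left _ h1
    have e : 4 * k * s = 2 * k * s + 2 * k * s := by ring
    have e2 : 2 * k * (s + 1) = 2 * k * s + 2 * k * 1 := by ring
    omega
  exact main n k s t hk h1 (by omega) (numeric n k s t hk h1 h4 (by omega) ht)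

end Pool.Agent.Results.MP_a7b5fd_co.Count
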