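import Pool.Agent.H37.Tpd1

namespace Pool.Agent.Results.MP_a7b5fd_co.Lower

open Pool.Agent.H37.Tpd

theorem result (n Δ : ℕ) (hΔ : 1 ≤ Δ) (hn : 2 * Δ + 1 ≤ n) :
    ∃ (V : Type) (_ : Finite V) (G : SimpleGraph V), Nat.card V = n ∧
      (∀ v, (G.neighborSet v).ncard ≤ Δ) ∧ (∃ v, (G.neighborSet v).ncard = Δ) ∧
      ∀ (t d : ℕ) (f : V → Fin d → ℤ),
        (∀ u v, u ≠ v → (G.Adj u v ↔ t ≤ hammingDist (f u) (f v))) →
          Δ ≤ 14 * t * (Nat.log 2 Δ + 2) := by
  classical
  obtain ⟨m, rfl⟩ : ∃ m, Δ = m + 1 := ⟨Δ - 1, by omega⟩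
  obtain ⟨k, rfl⟩ : ∃ k, n = 2 * (m + 1) + 1 + k := ⟨n - (2 * (m + 1) + 1), by omega⟩
  have hA : (Set.range fun a : Option (Fin m) =>
      (.inl (.inl a) : (Option (Fin m) ⊕ Fin (m + 1)) ⊕ Fin (k + 1))).ncard = m + 1 := by
    rw [← Set.image_univ, Set.ncard_image_of_injective _ (fun a b e => by simpa using e),
      Set.ncard_univ]
    simp
  have hB : (Set.range fun a : Fin (m + 1) =>
      (.inl (.inr a) : (Option (Fin m) ⊕ Fin (m + 1)) ⊕ Fin (k + 1))).ncard = m + 1 := by
    rw [← Set.image_univ, Set.ncard_image_of_injective _ (fun a b e => by simpa using e),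
      Set.ncard_univ]
    simp
  have key : ∃ M : Fin m → Fin (m + 1) → Bool, ∀ (t d : ℕ) (f : _ → Fin d → ℤ),
      (∀ u v, u ≠ v → ((Gr k M).Adj u v ↔ t ≤ hammingDist (f u) (f v))) →
        m + 1 ≤ 14 * t * (Nat.log 2 (m + 1) + 2) := by
    by_contra hne
    push Not at hne
    set L := Nat.log 2 (m + 1) + 2 with hL
    have far : ∀ (M : Fin m → Fin (m + 1) → Bool) (t d : ℕ) (f : _ → Fin d → ℤ),
        (∀ u v, u ≠ v → ((Gr k M).Adj u v ↔ t ≤ hammingDist (f u) (f v))) →
        ∀ a, hammingDist (f (.inl a)) (f (.inr 0)) < t := by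
      intro M t d f hf a
      by_contra hh
      have := (hf (.inl a) (.inr 0) (by simp)).2 (by omega)
      rcases a with a | a <;> exact this
    have le : ∀ s, 14 * s * L < m + 1 → s ≤ m / (14 * L) := fun s hs =>
      (Nat.le_div_iff_mul_le (by omega)).2 (by nlinarith)
    have h1 : 1 ≤ m / (14 * L) := by
      obtain ⟨s, d, f, hf, hs⟩ := hne fun _ _ => true
      have := far _ s d f hf (.inl none)
      have := le s hs
      omega
    have hc := count m (m / (14 * L)) (fun M => by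
      obtain ⟨s, d, f, hf, hs⟩ := hne M
      refine ⟨s, le s hs, d, fun a => f (.inl (Sum.map some id a)), f (.inr 0),
        fun a => (far M s d f hf _).le.trans (le s hs), fun a b => ?_⟩
      rw [← hf _ _ (by simp)]
      exact ⟨fun h a' e => Option.some_injective _ e ▸ h, fun h => h a rfl⟩)
    have hp : 2 * m + 2 ≤ 2 ^ L := by
      have := Nat.lt_pow_succ_log_self (b := 2) (by norm_num) (m + 1)
      rw [hL, show Nat.log 2 (m + 1) + 2 = (Nat.log 2 (m + 1)).succ + 1 from rfl, pow_succ]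
      omega
    have hm : 14 * (m / (14 * L)) * L ≤ m := by
      have := Nat.div_mul_le_self m (14 * L)
      nlinarith
    exact absurd hc (not_le.2 (numeric m _ L h1 hp hm (by omega)))
  obtain ⟨M, hM⟩ := key
  refine ⟨_, inferInstance, Gr k M, by simp; omega, ?_, ⟨.inl (.inl none), ?_⟩, hM⟩
  · rintro ((a | a) | a)
    · refine le_trans (Set.ncard_le_ncard ?_) hB.le
      rintro ((b | b) | b) h
      · exact h.elim
      · exact ⟨b, rfl⟩
      · exact h.elim
    · refine le_trans (Set.ncard_le_ncard ?_) hA.le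
      rintro ((b | b) | b) h
      · exact ⟨b, rfl⟩
      · exact h.elim
      · exact h.elim
    · refine le_trans (Set.ncard_le_ncard ?_) hA.le
      rintro ((b | b) | b) h <;> exact h.elim
  · refine Eq.trans ?_ hB
    congr 1
    ext ((b | b) | b)
    · exact ⟨fun h => h.elim, fun ⟨_, e⟩ => by simp at e⟩
    · exact ⟨fun _ => ⟨b, rfl⟩, fun _ a' e => by simp at e⟩
    · exact ⟨fun h => h.elim, fun ⟨_, e⟩ => by simp at e⟩

end Pool.Agent.Results.MP_a7b5fd_co.Lower
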